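import Mathlib
import Pool.Agent.Lib.P18b69d.Square

set_option autoImplicit false

open Filter Topology Finset

namespace Pool.Agent.Results.MP_18b69d_an.UnionFails

section Definitions

variable {X Y Z : Type} [NormedAddCommGroup X] [NormedSpace ℝ X]
  [NormedAddCommGroup Y] [NormedSpace ℝ Y] [NormedAddCommGroup Z] [NormedSpace ℝ Z]

/-- `z` is a Schauder basis of `Z` with biorthogonal functionals `z'`: for every `x` the scalar
sequence `k ↦ z' k x` is the one and only sequence `a` for which the partial sums of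
`∑ a k • z k` converge to `x` in norm. -/
def IsSchauderBasis (z : ℕ → Z) (z' : ℕ → (Z →L[ℝ] ℝ)) : Prop :=
  ∀ (x : Z) (a : ℕ → ℝ),
    Tendsto (fun N : ℕ => ∑ k ∈ range N, a k • z k) atTop (𝓝 x) ↔ ∀ k, a k = z' k x

/-- `inf_k |z'_k (T z_k)| > 0`. -/
def LargeDiagonal (z : ℕ → Z) (z' : ℕ → (Z →L[ℝ] ℝ)) (T : Z →L[ℝ] Z) : Prop :=
  0 < ⨅ k, |z' k (T (z k))|

/-- The identity factors through `T`: it equals `S T R` for bounded operators `R`, `S`. -/
def IdentityFactorsThrough (T : Z →L[ℝ] Z) : Prop :=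
  ∃ R S : Z →L[ℝ] Z, ContinuousLinearMap.id ℝ Z = S.comp (T.comp R)

/-- The identity factors through every bounded operator with large diagonal. -/
def FactorizationProperty (z : ℕ → Z) (z' : ℕ → (Z →L[ℝ] ℝ)) : Prop :=
  ∀ T : Z →L[ℝ] Z, LargeDiagonal z z' T → IdentityFactorsThrough T

/-- `σ` enumerates two copies of `ℕ`, each of which keeps its order. -/
def KeepsOrder (σ : ℕ ≃ ℕ ⊕ ℕ) : Prop :=
  StrictMono (fun n => σ.symm (Sum.inl n)) ∧ StrictMono (fun n => σ.symm (Sum.inr n))

/-- The union of `(e_n, 0)` and `(0, f_n)`, enumerated by `σ`. -/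
def unionBasis (e : ℕ → X) (f : ℕ → Y) (σ : ℕ ≃ ℕ ⊕ ℕ) (k : ℕ) : X × Y :=
  Sum.elim (fun n => (e n, 0)) (fun n => (0, f n)) (σ k)

/-- The functionals `(x, y) ↦ e'_n x` and `(x, y) ↦ f'_n y`, enumerated by `σ`. -/
def unionFunctionals (e' : ℕ → (X →L[ℝ] ℝ)) (f' : ℕ → (Y →L[ℝ] ℝ)) (σ : ℕ ≃ ℕ ⊕ ℕ) (k : ℕ) :
    X × Y →L[ℝ] ℝ :=
  Sum.elim (fun n => (e' n).comp (ContinuousLinearMap.fst ℝ X Y))
    (fun n => (f' n).comp (ContinuousLinearMap.snd ℝ X Y)) (σ k)

end Definitions

section Lemmas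

variable {X Y Z : Type} [NormedAddCommGroup X] [NormedSpace ℝ X]
  [NormedAddCommGroup Y] [NormedSpace ℝ Y] [NormedAddCommGroup Z] [NormedSpace ℝ Z]

lemma IsSchauderBasis.apply {z : ℕ → Z} {z' : ℕ → (Z →L[ℝ] ℝ)} (h : IsSchauderBasis z z')
    (k j : ℕ) : z' k (z j) = if k = j then 1 else 0 := by
  refine ((h (z j) (fun k => if k = j then 1 else 0)).1 ?_ k).symm
  refine tendsto_const_nhds.congr' ?_
  filter_upwards [eventually_gt_atTop j] with N hN
  rw [Finset.sum_eq_single_of_mem j (mem_range.2 hN)]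
  · rw [if_pos rfl, one_smul]
  · intro b _ hb
    rw [if_neg hb, zero_smul]

lemma isSchauderBasis_of {z : ℕ → Z} {z' : ℕ → (Z →L[ℝ] ℝ)}
    (h1 : ∀ k j, z' k (z j) = if k = j then 1 else 0)
    (h2 : ∀ x, Tendsto (fun N : ℕ => ∑ k ∈ range N, z' k x • z k) atTop (𝓝 x)) :
    IsSchauderBasis z z' := by
  intro x a
  constructor
  · intro h j
    have h3 : Tendsto (fun N : ℕ => z' j (∑ k ∈ range N, a k • z k)) atTop (𝓝 (z' j x)) :=
      ((z' j).continuous.tendsto x).comp h
    have h4 : Tendsto (fun N : ℕ => z' j (∑ k ∈ range N, a k • z k)) atTop (𝓝 (a j)) := by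
      refine tendsto_const_nhds.congr' ?_
      filter_upwards [eventually_gt_atTop j] with N hN
      rw [map_sum, Finset.sum_eq_single_of_mem j (mem_range.2 hN)]
      · rw [map_smul, h1, if_pos rfl, smul_eq_mul, mul_one]
      · intro b _ hb
        rw [map_smul, h1, if_neg (Ne.symm hb), smul_zero]
    exact tendsto_nhds_unique h4 h3
  · intro h
    have : a = fun k => z' k x := funext h
    rw [this]
    exact h2 x

/-- Partial sums over a sequence whose nonzero terms are, in order, those of another one. -/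
lemma tendsto_spread {E : Type} [NormedAddCommGroup E] {α : ℕ → ℕ} (hα : StrictMono α)
    {G h : ℕ → E} (h1 : ∀ n, G (α n) = h n) (h0 : ∀ k, (∀ n, α n ≠ k) → G k = 0) {s : E}
    (hs : Tendsto (fun N : ℕ => ∑ n ∈ range N, h n) atTop (𝓝 s)) :
    Tendsto (fun N : ℕ => ∑ k ∈ range N, G k) atTop (𝓝 s) := by
  have key : ∀ N : ℕ, ∃ a : ℕ, (∀ n, α n < N ↔ n < a) ∧
      ∑ k ∈ range N, G k = ∑ n ∈ range a, h n := by
    intro N
    induction N with
    | zero => exact ⟨0, fun n => by simp, by simp⟩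
    | succ N ih =>
      obtain ⟨a, ha, hsum⟩ := ih
      by_cases hN : ∃ m, α m = N
      · obtain ⟨m, hm⟩ := hN
        have hma : m = a := by
          rcases lt_trichotomy m a with hlt | heq | hgt
          · exact absurd ((ha m).2 hlt) (by omega)
          · exact heq
          · exact absurd ((ha a).1 (hm ▸ hα hgt)) (lt_irrefl a)
        subst hma
        refine ⟨m + 1, fun n => ?_, ?_⟩
        · rw [Nat.lt_succ_iff_lt_or_eq, ha, Nat.lt_succ_iff_lt_or_eq, ← hm]
          exact or_congr_right ⟨fun h => hα.injective h, fun h => by rw [h]⟩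
        · rw [Finset.sum_range_succ, Finset.sum_range_succ, hsum, ← hm, h1]
      · push Not at hN
        refine ⟨a, fun n => ?_, ?_⟩
        · rw [Nat.lt_succ_iff_lt_or_eq, ← ha]
          exact ⟨fun h => h.resolve_right (hN n), Or.inl⟩
        · rw [Finset.sum_range_succ, hsum, h0 N hN, add_zero]
  choose a ha hsum using key
  have hlim : Tendsto a atTop atTop := by
    refine tendsto_atTop_atTop.2 fun b => ⟨α b + 1, fun N hN => ?_⟩
    exact ((ha N b).1 (by omega)).le
  exact (hs.comp hlim).congr fun N => (hsum N).symm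

/-- Every order preserving enumeration of the union of two Schauder bases is a Schauder basis. -/
lemma isSchauderBasis_union {e : ℕ → X} {e' : ℕ → (X →L[ℝ] ℝ)} {f : ℕ → Y}
    {f' : ℕ → (Y →L[ℝ] ℝ)} (he : IsSchauderBasis e e') (hf : IsSchauderBasis f f')
    {σ : ℕ ≃ ℕ ⊕ ℕ} (hσ : KeepsOrder σ) :
    IsSchauderBasis (unionBasis e f σ) (unionFunctionals e' f' σ) := by
  refine isSchauderBasis_of (fun k j => ?_) (fun x => ?_)
  · have hkj : k = j ↔ σ k = σ j := σ.injective.eq_iff.symm
    rw [if_congr hkj rfl rfl]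
    unfold unionFunctionals unionBasis
    rcases σ k with n | n <;> rcases σ j with m | m
    · simp [he.apply n m]
    · simp
    · simp
    · simp [hf.apply n m]
  · obtain ⟨x, y⟩ := x
    have hx : Tendsto (fun N : ℕ => ∑ k ∈ range N,
        (unionFunctionals e' f' σ k (x, y) • unionBasis e f σ k).1) atTop (𝓝 x) := by
      refine tendsto_spread hσ.1 (h := fun n => e' n x • e n) (fun n => ?_) (fun k hk => ?_)
        ((he x fun k => e' k x).2 fun _ => rfl)
      · simp [unionFunctionals, unionBasis]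
      · rcases hs : σ k with n | n
        · exact absurd (by rw [← hs, Equiv.symm_apply_apply]) (hk n)
        · simp [unionBasis, hs]
    have hy : Tendsto (fun N : ℕ => ∑ k ∈ range N,
        (unionFunctionals e' f' σ k (x, y) • unionBasis e f σ k).2) atTop (𝓝 y) := by
      refine tendsto_spread hσ.2 (h := fun n => f' n y • f n) (fun n => ?_) (fun k hk => ?_)
        ((hf y fun k => f' k y).2 fun _ => rfl)
      · simp [unionFunctionals, unionBasis]
      · rcases hs : σ k with n | n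
        · simp [unionBasis, hs]
        · exact absurd (by rw [← hs, Equiv.symm_apply_apply]) (hk n)
    refine (hx.prodMk_nhds hy).congr fun N => ?_
    rw [← Prod.fst_sum, ← Prod.snd_sum]

end Lemmas

/-- There is a real Banach space `X` with a normalized, `1`-unconditional, shrinking Schauder basis
`e` that has the factorization property, such that the identity of `X ⊕ X` does not factor through
the projection `Q (x, y) = ((x + y) / 2, (x + y) / 2)`, all of whose diagonal entries with respect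
to any union basis of `e` and `e` are `1 / 2`. So no union basis of `e` and `e` has the
factorization property. -/
theorem result : ∃ (X : Type) (_ : NormedAddCommGroup X) (_ : NormedSpace ℝ X)
    (_ : CompleteSpace X) (e : ℕ → X) (e' : ℕ → (X →L[ℝ] ℝ)),
    IsSchauderBasis e e' ∧ (∀ n, ‖e n‖ = 1) ∧
    (∀ (x : X) (c : ℕ → ℝ), (∀ n, |c n| ≤ 1) →
      ∃ y : X, (∀ n, e' n y = c n * e' n x) ∧ ‖y‖ ≤ ‖x‖) ∧
    (∀ (φ : X →L[ℝ] ℝ) (ε : ℝ), 0 < ε →
      ∃ p : ℕ, ∀ x : X, (∀ n < p, e' n x = 0) → |φ x| ≤ ε * ‖x‖) ∧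
    FactorizationProperty e e' ∧
    ∃ Q : (X × X) →L[ℝ] (X × X),
      (∀ x y : X, Q (x, y) = ((1 / 2 : ℝ) • (x + y), (1 / 2 : ℝ) • (x + y))) ∧
      Q.comp Q = Q ∧ ‖Q‖ ≤ 1 ∧ ¬ IdentityFactorsThrough Q ∧
      ∀ σ : ℕ ≃ ℕ ⊕ ℕ, KeepsOrder σ →
        IsSchauderBasis (unionBasis e e σ) (unionFunctionals e' e' σ) ∧
        (∀ k, unionFunctionals e' e' σ k (Q (unionBasis e e σ k)) = 1 / 2) ∧
        ¬ FactorizationProperty (unionBasis e e σ) (unionFunctionals e' e' σ) := by
  have hbi : ∀ i j : ℕ, P18b69d.Space.coord (𝓦 := P18b69d.NS) i (P18b69d.Space.bv j) =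
      if i = j then (1 : ℝ) else 0 := fun i j => rfl
  have hbasis : IsSchauderBasis (Z := P18b69d.X) P18b69d.Space.bv P18b69d.Space.coord :=
    isSchauderBasis_of hbi fun x => P18b69d.Space.tendsto_partial x
  have hfp : FactorizationProperty (Z := P18b69d.X) P18b69d.Space.bv P18b69d.Space.coord := by
    intro T hT
    obtain ⟨A, B, hAB⟩ := P18b69d.fp_X T ⟨_, hT, fun n =>
      ciInf_le ⟨0, by rintro _ ⟨k, rfl⟩; exact abs_nonneg _⟩ n⟩
    exact ⟨B, A, hAB.symm⟩
  let sm : (P18b69d.X × P18b69d.X) →L[ℝ] P18b69d.X := (1 / 2 : ℝ) •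
    (ContinuousLinearMap.fst ℝ P18b69d.X P18b69d.X + ContinuousLinearMap.snd ℝ P18b69d.X P18b69d.X)
  have hsm : ∀ p : P18b69d.X × P18b69d.X, sm p = (1 / 2 : ℝ) • (p.1 + p.2) := fun p => rfl
  have hQ : ¬ IdentityFactorsThrough (sm.prod sm) := by
    rintro ⟨B, A, hAB⟩
    have hAB' : ∀ q : P18b69d.X × P18b69d.X, A (sm (B q), sm (B q)) = q := by
      intro q
      have := DFunLike.congr_fun hAB.symm q
      exact this
    let inc : Fin 2 → (P18b69d.X →L[ℝ] P18b69d.X × P18b69d.X) := fun i =>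
      if i = 0 then ContinuousLinearMap.inl ℝ P18b69d.X P18b69d.X
      else ContinuousLinearMap.inr ℝ P18b69d.X P18b69d.X
    let prj : Fin 2 → (P18b69d.X × P18b69d.X →L[ℝ] P18b69d.X) := fun j =>
      if j = 0 then ContinuousLinearMap.fst ℝ P18b69d.X P18b69d.X
      else ContinuousLinearMap.snd ℝ P18b69d.X P18b69d.X
    let dg : P18b69d.X →L[ℝ] P18b69d.X × P18b69d.X :=
      (ContinuousLinearMap.id ℝ P18b69d.X).prod (ContinuousLinearMap.id ℝ P18b69d.X)
    refine P18b69d.no_square (fun i => sm.comp (B.comp (inc i)))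
      (fun j => (prj j).comp (A.comp dg)) ?_
    intro i j x
    have h1 : ((prj j).comp (A.comp dg)) ((sm.comp (B.comp (inc i))) x) = prj j (inc i x) := by
      change prj j (A (sm (B (inc i x)), sm (B (inc i x)))) = _
      rw [hAB']
    rw [h1]
    fin_cases i <;> fin_cases j <;> simp [inc, prj]
  refine ⟨P18b69d.X, inferInstance, inferInstance, inferInstance, P18b69d.Space.bv,
    P18b69d.Space.coord, hbasis, fun n => ?_, fun x c hc => ?_, fun φ ε hε => ?_, hfp,
    sm.prod sm, fun x y => rfl, ?_, ?_, hQ, fun σ hσ => ?_⟩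
  · refine le_antisymm (P18b69d.Space.norm_bv_le n) ?_
    have := P18b69d.Space.abs_apply_le (P18b69d.Space.bv n : P18b69d.X) n
    rwa [P18b69d.Space.bv_apply, if_pos rfl, abs_one] at this
  · refine ⟨P18b69d.Space.mulOp c 1 hc x, fun n => rfl, ?_⟩
    have := P18b69d.Space.norm_mulOp_apply_le c 1 hc x
    rwa [one_mul] at this
  · exact P18b69d.shrinking φ hε
  · refine ContinuousLinearMap.ext fun p => ?_
    have h1 : ∀ a : P18b69d.X, sm (a, a) = a := fun a => by
      rw [hsm, ← two_smul ℝ a, smul_smul]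
      norm_num
    change (sm (sm p, sm p), sm (sm p, sm p)) = (sm p, sm p)
    rw [h1]
  · refine ContinuousLinearMap.opNorm_le_bound _ zero_le_one fun p => ?_
    rw [one_mul]
    have h1 : ‖sm p‖ ≤ ‖p‖ := by
      rw [hsm, norm_smul, Real.norm_of_nonneg (by norm_num)]
      have h2 := norm_add_le p.1 p.2
      have h3 := norm_fst_le p
      have h4 := norm_snd_le p
      linarith
    exact max_le h1 h1
  · have hdiag : ∀ k, unionFunctionals P18b69d.Space.coord P18b69d.Space.coord σ k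
        ((sm.prod sm) (unionBasis P18b69d.Space.bv P18b69d.Space.bv σ k)) = 1 / 2 := by
      intro k
      unfold unionFunctionals unionBasis
      rcases σ k with n | n
      · change P18b69d.Space.coord n ((1 / 2 : ℝ) • (P18b69d.Space.bv n + 0 : P18b69d.X)) = 1 / 2
        rw [add_zero, map_smul, hbi, if_pos rfl, smul_eq_mul, mul_one]
      · change P18b69d.Space.coord n ((1 / 2 : ℝ) • (0 + P18b69d.Space.bv n : P18b69d.X)) = 1 / 2
        rw [zero_add, map_smul, hbi, if_pos rfl, smul_eq_mul, mul_one]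
    refine ⟨isSchauderBasis_union hbasis hbasis hσ, hdiag, fun h => hQ (h _ ?_)⟩
    change 0 < ⨅ k, |_|
    simp only [hdiag]
    rw [ciInf_const]
    norm_num

end Pool.Agent.Results.MP_18b69d_an.UnionFails
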